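import Pool.Agent.Q283.FT.Stm3
import Pool.Agent.Q164.EN.Qrs

/-!
# Project FT of helper283, job CNT: the number of the elements of the Selmer group (helper121)
-/

set_option autoImplicit false

namespace Pool.Agent.Q121.FT

open NumberField IsDedekindDomain WeierstrassCurve
open Pool.Agent.Q7.LK (IsPow)
open Pool.Agent.Q285.CE (some_cg act_fix)
open Pool.Agent.TH841.SH (IsR)
open Pool.Agent.TH841.SH.D (Coch Pt act Gal IsCoc IsCob LocTriv cob)
open Pool.Agent.TH841.NF.D (Sha IsShaCoc shaCoc)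
open Pool.Agent.Q164.EN (T2 mem_T2 relIndex_comap' index_comap' cb cb_app mem_cob jj fixed cb_sha cob_le_sha
  sha_card)
open Pool.Agent.Q283.FT

theorem exists_place (F : Type) [Field F] [NumberField F] : Nonempty (HeightOneSpectrum (𝓞 F)) := by
  obtain ⟨M, hM⟩ := Ideal.exists_maximal (𝓞 F)
  exact ⟨⟨M, hM.isPrime, Ring.ne_bot_of_isMaximal_of_not_isField hM (RingOfIntegers.not_isField F)⟩⟩

theorem isr {F : Type} [Field F] {e : Fin 3 → F} (he : Rt e) (L : Type) [Field L] [Algebra F L] :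
    IsR ((crv e).baseChange L) (algebraMap F L (e 0)) (algebraMap F L (e 1)) (algebraMap F L (e 2)) where
  h1 := by
    show algebraMap F L 0 = 0
    exact map_zero _
  h2 := by
    show algebraMap F L 0 = _
    rw [← map_add, ← map_add, he.sum, map_zero, neg_zero]
  h3 := by
    show algebraMap F L 0 = 0
    exact map_zero _
  h4 := by
    show algebraMap F L (e 0 * e 1 + e 0 * e 2 + e 1 * e 2) = _
    rw [map_add, map_add, map_mul, map_mul, map_mul]
  h6 := by
    show algebraMap F L (-(e 0 * e 1 * e 2)) = _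
    rw [map_neg, map_mul, map_mul]

section one

variable {F : Type} [Field F] [NumberField F]

/-- the points of order two are rational -/
def TR (W : WeierstrassCurve F) : Prop := ∀ T : Pt W (AlgebraicClosure F), (2 : ℕ) • T = 0 → cb W T = 0

/-- divisibility by two -/
def DV (W : WeierstrassCurve F) : Prop := ∀ P : Pt W (AlgebraicClosure F), ∃ Q, (2 : ℕ) • Q = P

theorem tr {e : Fin 3 → F} (he : Rt e) : TR (crv e) := by
  intro T hT
  rw [two_nsmul] at hT
  funext σ
  rw [cb_app]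
  show act (crv e) σ.toAlgHom T - T = 0
  rw [sub_eq_zero]
  have h2 : (2 : AlgebraicClosure F) ≠ 0 := two_ne_zero
  rcases @IsR.tors _ _ _ _ _ _ (Classical.decEq _) (isr he (AlgebraicClosure F)) h2 T hT with
    h | ⟨hn, h⟩ | ⟨hn, h⟩ | ⟨hn, h⟩
  · rw [h]
    exact map_zero (act (crv e) σ.toAlgHom)
  · rw [h]
    exact some_cg (W := (crv e).baseChange (AlgebraicClosure F)) (σ.commutes _) (map_zero σ)
  · rw [h]
    exact some_cg (W := (crv e).baseChange (AlgebraicClosure F)) (σ.commutes _) (map_zero σ)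
  · rw [h]
    exact some_cg (W := (crv e).baseChange (AlgebraicClosure F)) (σ.commutes _) (map_zero σ)

theorem dv {e : Fin 3 → F} (he : Rt e) : DV (crv e) := by
  intro P
  have h2 : (2 : AlgebraicClosure F) ≠ 0 := two_ne_zero
  have hinj : Function.Injective (algebraMap F (AlgebraicClosure F)) := (algebraMap F (AlgebraicClosure F)).injective
  obtain ⟨Q, hQ⟩ := @IsR.div _ _ _ _ _ _ (Classical.decEq _) _ (isr he (AlgebraicClosure F)) h2
    (hinj.ne (he.inj.ne (by decide))) (hinj.ne (he.inj.ne (by decide))) (hinj.ne (he.inj.ne (by decide))) P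
  refine ⟨Q, ?_⟩
  rw [two_nsmul]
  exact hQ.symm

variable (W : WeierstrassCurve F)

/-- the locally trivial cocycles with values in the points of order dividing two -/
noncomputable def SS : AddSubgroup (Coch W) := shaCoc W ⊓ T2 (Coch W)

theorem cb_jj (P : Pt W F) : cb W (jj W P) = 0 := by
  funext σ
  rw [cb_app]
  show act W σ.toAlgHom (jj W P) - jj W P = 0
  rw [sub_eq_zero]
  exact act_fix W σ P

theorem ker_cb : (cb W).ker = (jj W).range := by
  ext R
  rw [AddMonoidHom.mem_ker]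
  constructor
  · intro h
    obtain ⟨Q, hQ⟩ := fixed h
    exact ⟨Q, hQ⟩
  · rintro ⟨Q, rfl⟩
    exact cb_jj W Q

/-- coboundaries in the Selmer group -/
theorem card_cob (hT : TR W) (hD : DV W) :
    Nat.card (cob W ⊓ SS W : AddSubgroup (Coch W)) = (nsmulAddMonoidHom 2 : Pt W F →+ Pt W F).range.index := by
  obtain ⟨m, hm⟩ : ∃ m : Pt W (AlgebraicClosure F) →+ Pt W (AlgebraicClosure F), m = nsmulAddMonoidHom 2 := ⟨_, rfl⟩
  have hm' : ∀ R, m R = (2 : ℕ) • R := fun R => by rw [hm]; rfl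
  obtain ⟨HH, hHH⟩ : ∃ H : AddSubgroup (Pt W (AlgebraicClosure F)), H = (jj W).range.comap m := ⟨_, rfl⟩
  obtain ⟨X, hX⟩ : ∃ X : AddSubgroup (Pt W (AlgebraicClosure F)), X = (jj W).range.map m := ⟨_, rfl⟩
  have s1 : HH.map (cb W) = cob W ⊓ SS W := by
    ext f
    rw [AddSubgroup.mem_map, AddSubgroup.mem_inf, mem_cob]
    constructor
    · rintro ⟨R, hR, rfl⟩
      refine ⟨⟨R, rfl⟩, cb_sha R, ?_⟩
      rw [hHH, AddSubgroup.mem_comap, hm'] at hR
      obtain ⟨P, hP⟩ := hR
      show cb W R ∈ T2 (Coch W)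
      rw [mem_T2, ← map_nsmul, ← hP, cb_jj]
    · rintro ⟨⟨R, rfl⟩, h1, h2⟩
      have h3 : cb W R ∈ T2 (Coch W) := h2
      rw [mem_T2, ← map_nsmul] at h3
      obtain ⟨Q, hQ⟩ := fixed h3
      refine ⟨R, ?_, rfl⟩
      rw [hHH, AddSubgroup.mem_comap, hm']
      exact ⟨Q, hQ⟩
  have s2 : X.comap m = (jj W).range := by
    apply le_antisymm
    · intro x hx
      rw [AddSubgroup.mem_comap, hX, AddSubgroup.mem_map] at hx
      obtain ⟨y, hy, hxy⟩ := hx
      have h1 : (2 : ℕ) • (x - y) = 0 := by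
        rw [← hm', map_sub, hxy, sub_self]
      obtain ⟨Q, hQ⟩ := fixed (hT _ h1)
      have h2 : x = (x - y) + y := by abel
      rw [h2]
      exact (jj W).range.add_mem ⟨Q, hQ⟩ hy
    · intro x hx
      rw [AddSubgroup.mem_comap, hX]
      exact AddSubgroup.mem_map_of_mem _ hx
  have s3 : HH.map m = (jj W).range := by
    rw [hHH]
    exact AddSubgroup.map_comap_eq_self_of_surjective (fun P => by
      obtain ⟨Q, hQ⟩ := hD P
      exact ⟨Q, by rw [hm', hQ]⟩) _
  have s4 : X.comap (jj W) = (nsmulAddMonoidHom 2 : Pt W F →+ Pt W F).range := by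
    ext P
    rw [AddSubgroup.mem_comap, hX, AddSubgroup.mem_map]
    constructor
    · rintro ⟨y, ⟨Q, rfl⟩, hy⟩
      refine ⟨Q, ?_⟩
      apply Pool.Agent.Q285.CE.act_inj W (Algebra.ofId F (AlgebraicClosure F))
      show jj W ((2 : ℕ) • Q) = jj W P
      rw [map_nsmul, ← hm', hy]
    · rintro ⟨Q, rfl⟩
      refine ⟨jj W Q, ⟨Q, rfl⟩, ?_⟩
      show m (jj W Q) = jj W ((2 : ℕ) • Q)
      rw [hm', map_nsmul]
  rw [← AddSubgroup.relIndex_bot_left, ← s1, ← relIndex_comap', AddMonoidHom.comap_bot, ker_cb, ← s2,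
    relIndex_comap', s3, ← index_comap', s4]

/-- the Selmer group and the elements of order dividing two -/
theorem idx_U2 (hD : DV W) : (cob W).relIndex (Pool.Agent.Q164.EN.U2 W) = (cob W).relIndex (SS W) := by
  have h1 : Pool.Agent.Q164.EN.U2 W = SS W ⊔ cob W := by
    apply le_antisymm
    · rintro f ⟨hf1, hf2⟩
      have hf3 : (2 : ℕ) • f ∈ cob W := hf2
      obtain ⟨P, hP⟩ := (mem_cob W).1 hf3
      obtain ⟨R, hR⟩ := hD P
      have h1 : f = (f - cb W R) + cb W R := by abel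
      rw [h1]
      refine AddSubgroup.add_mem_sup ⟨(shaCoc W).sub_mem hf1 (cb_sha R), ?_⟩ ((mem_cob W).2 ⟨R, rfl⟩)
      show f - cb W R ∈ T2 (Coch W)
      rw [mem_T2, smul_sub, ← map_nsmul, hR, hP, sub_self]
    · refine sup_le ?_ ?_
      · rintro f ⟨hf1, hf2⟩
        refine ⟨hf1, ?_⟩
        show (2 : ℕ) • f ∈ cob W
        rw [mem_T2.1 hf2]
        exact (cob W).zero_mem
      · intro f hf
        refine ⟨cob_le_sha hf, ?_⟩
        show (2 : ℕ) • f ∈ cob W
        exact (cob W).nsmul_mem hf 2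
  rw [h1]
  exact AddSubgroup.relIndex_sup_right _ _

theorem card_SS (hT : TR W) (hD : DV W) :
    Nat.card (SS W) = (nsmulAddMonoidHom 2 : Pt W F →+ Pt W F).range.index *
      Nat.card {x : Sha W // (2 : ℕ) • x = 0} := by
  rw [sha_card, idx_U2 W hD, ← card_cob W hT hD, ← AddSubgroup.relIndex_bot_left,
    ← AddSubgroup.relIndex_bot_left, AddSubgroup.relIndex_inf_mul_relIndex, bot_inf_eq]

end one

theorem cnt (hKSA : S_KSA) (hKSB : S_KSB) (hKSL : S_KSL) (hMWR : S_MWR) : S_CNT2 := by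
  intro F _ _ i hi e he N hN
  obtain ⟨a, h1, h2, h3⟩ := hN
  obtain ⟨v0⟩ := exists_place F
  obtain ⟨hB1, hB2, hB3, hB4⟩ := hKSB F e he
  have hne : ∀ j, (a j).1 ≠ 0 ∧ (a j).2 ≠ 0 := fun j => ⟨(h1 j v0).1, (h1 j v0).2.1⟩
  choose f hf using fun j => hB1 (a j).1 (a j).2 (hne j).1 (hne j).2
  have hmem : ∀ j, f j ∈ SS (crv e) := by
    intro j
    obtain ⟨k1, k2⟩ := hKSL F i hi e he (a j).1 (a j).2 (f j) (hne j).1 (hne j).2 (hf j)
    refine ⟨⟨hB2 _ _ _ (hne j).1 (hne j).2 (hf j), fun v => (k1 v).2 (h1 j v), k2⟩, ?_⟩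
    show f j ∈ T2 (Coch (crv e))
    rw [mem_T2, two_nsmul]
    funext σ
    exact (hf j).1 σ
  have hbij : Function.Bijective (fun j : Fin N => (⟨f j, hmem j⟩ : SS (crv e))) := by
    constructor
    · intro j j' hjj
      have e1 : f j = f j' := congrArg Subtype.val hjj
      by_contra hne'
      exact h2 j j' hne' ((hB4 _ _ _ _ _ _ (hne j).1 (hne j).2 (hne j').1 (hne j').2 (hf j) (hf j')).1 e1)
    · rintro ⟨g, hg1, hg2⟩
      have hg3 : (2 : ℕ) • g = 0 := hg2
      have hg4 : ∀ σ, g σ + g σ = 0 := by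
        intro σ
        have := congrFun hg3 σ
        rw [two_nsmul] at this
        exact this
      obtain ⟨b, b', hb, hb', hk⟩ := hKSA F e he g hg1.1 hg4
      obtain ⟨k1, k2⟩ := hKSL F i hi e he b b' g hb hb' hk
      obtain ⟨j, hj⟩ := h3 b b' (fun v => (k1 v).1 (hg1.2.1 v))
      refine ⟨j, Subtype.ext ?_⟩
      exact ((hB4 _ _ _ _ _ _ hb hb' (hne j).1 (hne j).2 hk (hf j)).2 hj).symm
  have hcard : Nat.card (SS (crv e)) = N := by
    rw [← Nat.card_congr (Equiv.ofBijective _ hbij), Nat.card_eq_fintype_card, Fintype.card_fin]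
  have hfin : Finite (SS (crv e)) := Finite.of_equiv _ (Equiv.ofBijective _ hbij)
  have hN0 : N ≠ 0 := by
    rw [← hcard]
    exact Nat.card_ne_zero.2 ⟨⟨0⟩, hfin⟩
  have hc := card_SS (crv e) (tr he) (dv he)
  have hM : (nsmulAddMonoidHom 2 : Pt (crv e) F →+ Pt (crv e) F).range.index =
      4 * 2 ^ Module.finrank ℤ (Pt (crv e) F) := (hMWR F e he).2
  rw [hM, hcard] at hc
  refine ⟨Nat.finite_of_card_ne_zero ?_, hc⟩
  intro h0
  rw [h0, mul_zero] at hc
  exact hN0 hc

end Pool.Agent.Q121.FT
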